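import Mathlib

/-!
The half ball `{y : 2 |y| + 2 t < m}` of `F₂^m` has density at least `3/32` when `16 t^2 < m`.
-/

namespace Pool.Agent.LGL

open Finset

/-- the sign of a bit -/
def sg (a : ZMod 2) : ℝ := if a = 0 then 1 else -1

/-- the sum of the signs -/
noncomputable def S {m : ℕ} (y : Fin m → ZMod 2) : ℝ := ∑ i, sg (y i)

theorem sg_add_one (a : ZMod 2) : sg (a + 1) = - sg a := by
  have : a = 0 ∨ a = 1 := by revert a; decide
  rcases this with rfl | rfl
  · have h : ((0 : ZMod 2) + 1) ≠ 0 := by decide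
    simp [sg]
  · have h : ((1 : ZMod 2) + 1) = 0 := by decide
    simp [sg, h]

theorem S_eq {m : ℕ} (y : Fin m → ZMod 2) : S y = m - 2 * hammingNorm y := by
  classical
  have h : ∀ i, sg (y i) = 1 - 2 * (if y i ≠ 0 then 1 else 0) := by
    intro i
    by_cases h : y i = 0
    · simp [sg, h]
    · simp [sg, h]; norm_num
  unfold S hammingNorm
  rw [sum_congr rfl (fun i _ => h i), sum_sub_distrib, ← mul_sum, sum_boole]
  simp

theorem S_flip {m : ℕ} (y : Fin m → ZMod 2) : S (fun i => y i + 1) = - S y := by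
  unfold S
  rw [sum_congr rfl (fun i _ => sg_add_one (y i)), sum_neg_distrib]

theorem sum_cons {m : ℕ} (g : (Fin (m + 1) → ZMod 2) → ℝ) :
    ∑ y, g y = ∑ z : Fin m → ZMod 2, (g (Fin.cons 0 z) + g (Fin.cons 1 z)) := by
  rw [← (Fin.consEquiv (fun _ => ZMod 2)).sum_comp, Fintype.sum_prod_type]
  have h : (univ : Finset (ZMod 2)) = {0, 1} := by decide
  rw [h, sum_pair (by decide), ← sum_add_distrib]
  rfl

theorem S_cons {m : ℕ} (a : ZMod 2) (z : Fin m → ZMod 2) : S (Fin.cons a z : Fin (m + 1) → ZMod 2)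
    = sg a + S z := by
  unfold S
  rw [Fin.sum_univ_succ]
  simp

theorem sum_S2 (m : ℕ) : ∑ y : Fin m → ZMod 2, S y ^ 2 = m * 2 ^ m := by
  induction m with
  | zero => simp [S]
  | succ m ih =>
    rw [sum_cons]
    have : ∀ z : Fin m → ZMod 2, S (Fin.cons 0 z : Fin (m + 1) → ZMod 2) ^ 2
        + S (Fin.cons 1 z : Fin (m + 1) → ZMod 2) ^ 2 = 2 * S z ^ 2 + 2 := by
      intro z
      rw [S_cons, S_cons]
      simp only [sg]; norm_num; ring
    rw [sum_congr rfl (fun z _ => this z), sum_add_distrib, ← mul_sum, ih]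
    simp; ring

theorem sum_S4 (m : ℕ) : ∑ y : Fin m → ZMod 2, S y ^ 4 = (3 * m ^ 2 - 2 * m) * 2 ^ m := by
  induction m with
  | zero => simp [S]
  | succ m ih =>
    rw [sum_cons]
    have : ∀ z : Fin m → ZMod 2, S (Fin.cons 0 z : Fin (m + 1) → ZMod 2) ^ 4
        + S (Fin.cons 1 z : Fin (m + 1) → ZMod 2) ^ 4 = 2 * S z ^ 4 + 12 * S z ^ 2 + 2 := by
      intro z
      rw [S_cons, S_cons]
      simp only [sg]; norm_num; ring
    rw [sum_congr rfl (fun z _ => this z), sum_add_distrib, sum_add_distrib, ← mul_sum, ← mul_sum,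
      ih, sum_S2]
    simp; ring

/-- the half ball -/
def half (m t : ℕ) : Finset (Fin m → ZMod 2) := univ.filter fun y => 2 * hammingNorm y + 2 * t < m

theorem card_half {m t : ℕ} (h : 16 * t ^ 2 < m) : 3 * 2 ^ m ≤ 32 * (half m t).card := by
  classical
  have hm : (0 : ℝ) < m := by
    have : 0 < m := by omega
    exact_mod_cast this
  have hN : (0 : ℝ) < 2 ^ m := by positivity
  let P : Finset (Fin m → ZMod 2) := univ.filter fun y => (m : ℝ) / 4 ≤ S y ^ 2
  have h1 : (3 / 4 : ℝ) * m * 2 ^ m ≤ ∑ y ∈ P, S y ^ 2 := by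
    have h2 := sum_filter_add_sum_filter_not (univ : Finset (Fin m → ZMod 2))
      (fun y => (m : ℝ) / 4 ≤ S y ^ 2) (fun y => S y ^ 2)
    have h3 : ∑ y ∈ univ.filter (fun y : Fin m → ZMod 2 => ¬ (m : ℝ) / 4 ≤ S y ^ 2), S y ^ 2
        ≤ ∑ _y ∈ univ.filter (fun y : Fin m → ZMod 2 => ¬ (m : ℝ) / 4 ≤ S y ^ 2), (m : ℝ) / 4 := by
      apply sum_le_sum
      intro y hy
      simp only [mem_filter, mem_univ, true_and, not_le] at hy
      exact hy.le
    have h4 : ∑ _y ∈ univ.filter (fun y : Fin m → ZMod 2 => ¬ (m : ℝ) / 4 ≤ S y ^ 2), (m : ℝ) / 4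
        ≤ ∑ _y : Fin m → ZMod 2, (m : ℝ) / 4 :=
      sum_le_sum_of_subset_of_nonneg (filter_subset _ _) (fun _ _ _ => by positivity)
    have h5 : ∑ _y : Fin m → ZMod 2, (m : ℝ) / 4 = 2 ^ m * (m / 4) := by simp
    rw [sum_S2] at h2
    have h6 : ∑ y ∈ P, S y ^ 2
        = ∑ y ∈ univ.filter (fun y : Fin m → ZMod 2 => (m : ℝ) / 4 ≤ S y ^ 2), S y ^ 2 := rfl
    rw [h6]
    nlinarith
  have h7 : (∑ y ∈ P, S y ^ 2) ^ 2 ≤ P.card * ∑ y ∈ P, (S y ^ 2) ^ 2 :=
    sq_sum_le_card_mul_sum_sq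
  have h8 : ∑ y ∈ P, (S y ^ 2) ^ 2 ≤ 3 * m ^ 2 * 2 ^ m := by
    calc ∑ y ∈ P, (S y ^ 2) ^ 2 ≤ ∑ y : Fin m → ZMod 2, (S y ^ 2) ^ 2 :=
          sum_le_sum_of_subset_of_nonneg (subset_univ _) (fun _ _ _ => by positivity)
      _ = ∑ y : Fin m → ZMod 2, S y ^ 4 := by
          apply sum_congr rfl; intro y _; ring
      _ = (3 * m ^ 2 - 2 * m) * 2 ^ m := sum_S4 m
      _ ≤ _ := by nlinarith [mul_pos hm hN]
  have h9 : (3 / 16 : ℝ) * 2 ^ m ≤ P.card := by
    have h10 : ((3 / 4 : ℝ) * m * 2 ^ m) ^ 2 ≤ P.card * (3 * m ^ 2 * 2 ^ m) := by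
      calc ((3 / 4 : ℝ) * m * 2 ^ m) ^ 2 ≤ (∑ y ∈ P, S y ^ 2) ^ 2 := by
            apply pow_le_pow_left₀ (by positivity) h1
        _ ≤ _ := h7
        _ ≤ _ := mul_le_mul_of_nonneg_left h8 (Nat.cast_nonneg _)
    have h11 : (0 : ℝ) < 3 * m ^ 2 * 2 ^ m := by positivity
    have h12 : ((3 / 4 : ℝ) * m * 2 ^ m) ^ 2 = ((3 / 16 : ℝ) * 2 ^ m) * (3 * m ^ 2 * 2 ^ m) := by
      ring
    rw [h12] at h10
    exact le_of_mul_le_mul_right h10 h11
  -- split by sign
  let Pp : Finset (Fin m → ZMod 2) := P.filter fun y => 0 < S y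
  let Pn : Finset (Fin m → ZMod 2) := P.filter fun y => ¬ 0 < S y
  have h13 : Pp.card + Pn.card = P.card := card_filter_add_card_filter_not _
  have h14 : Pn.card ≤ Pp.card := by
    apply card_le_card_of_injOn (fun y i => y i + 1)
    · intro y hy
      simp only [Pn, Pp, P, coe_filter, mem_filter, mem_univ, true_and, Set.mem_setOf_eq] at hy ⊢
      rw [S_flip]
      obtain ⟨h15, h16⟩ := hy
      refine ⟨by rw [neg_sq]; exact h15, ?_⟩
      have : S y ≠ 0 := by
        intro h0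
        rw [h0] at h15
        norm_num at h15
        linarith
      have : S y < 0 := lt_of_le_of_ne (not_lt.1 h16) this
      linarith
    · intro y _ z _ hyz
      funext i
      have := congrFun hyz i
      exact add_right_cancel this
  have h15 : Pp ⊆ half m t := by
    intro y hy
    simp only [Pp, P, mem_filter, mem_univ, true_and] at hy
    simp only [half, mem_filter, mem_univ, true_and]
    obtain ⟨h16, h17⟩ := hy
    have h18 : (16 * t ^ 2 : ℝ) < m := by exact_mod_cast h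
    have h19 : (2 * t : ℝ) < S y := by
      by_contra hcon
      push Not at hcon
      have : S y ^ 2 ≤ (2 * t : ℝ) ^ 2 := pow_le_pow_left₀ h17.le hcon 2
      nlinarith
    rw [S_eq] at h19
    have : (2 * (hammingNorm y : ℝ) + 2 * t) < m := by linarith
    exact_mod_cast this
  have h16 : Pp.card ≤ (half m t).card := card_le_card h15
  have h17 : P.card ≤ 2 * (half m t).card := by omega
  have h18 : (P.card : ℝ) ≤ 2 * (half m t).card := by exact_mod_cast h17
  have h19 : (3 : ℝ) * 2 ^ m ≤ 32 * (half m t).card := by linarith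
  exact_mod_cast h19

theorem half_add {m t : ℕ} {y z : Fin m → ZMod 2} (hy : y ∈ half m t) (hz : z ∈ half m t) :
    hammingNorm (y + z) + (2 * t + 1) ≤ m := by
  classical
  simp only [half, mem_filter, mem_univ, true_and] at hy hz
  have h : hammingNorm (y + z) ≤ hammingNorm y + hammingNorm z := by
    have h1 := hammingDist_triangle (-y) 0 z
    rw [hammingDist_eq_hammingNorm, hammingDist_eq_hammingNorm, hammingDist_eq_hammingNorm] at h1
    simpa using h1
  omega

end Pool.Agent.LGL
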