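import Pool.Agent.LGL.Lin
import Pool.Agent.LGL.Ball

/-!
Random intersection of half balls: existence of a dense set whose sumset contains no subspace of
small codimension.
-/

namespace Pool.Agent.LGL

open Finset Module Pointwise

/-- matrices `M` for which `j` independent combinations of the rows lie in the span of `r` -/
noncomputable def Bad (m n j k : ℕ) (r : Fin k → Fin n → ZMod 2) :
    Finset (Matrix (Fin m) (Fin n) (ZMod 2)) := by
  classical
  exact univ.filter fun M => ∃ u : Fin j → Fin m → ZMod 2, LinearIndependent (ZMod 2) u ∧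
    ∃ c : Fin j → Fin k → ZMod 2, ∀ l, Matrix.vecMul (u l) M = ∑ s, c l s • r s

theorem card_Bad (m n j k : ℕ) (r : Fin k → Fin n → ZMod 2) :
    (Bad m n j k r).card * 2 ^ (j * n) ≤ 2 ^ (m * j + k * j + m * n) := by
  classical
  let I : Finset ((Fin j → Fin m → ZMod 2) × (Fin j → Fin k → ZMod 2)) :=
    univ.filter fun p => LinearIndependent (ZMod 2) p.1
  have hsub : Bad m n j k r ⊆ I.biUnion (fun p => univ.filter fun M =>
      ∀ l, Matrix.vecMul (p.1 l) M = ∑ s, p.2 l s • r s) := by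
    intro M hM
    simp only [Bad, mem_filter, mem_univ, true_and] at hM
    obtain ⟨u, hu, c, hc⟩ := hM
    simp only [mem_biUnion, I, mem_filter, mem_univ, true_and]
    exact ⟨(u, c), hu, hc⟩
  have h1 : (Bad m n j k r).card ≤ ∑ p ∈ I, (univ.filter fun M : Matrix (Fin m) (Fin n) (ZMod 2) =>
      ∀ l, Matrix.vecMul (p.1 l) M = ∑ s, p.2 l s • r s).card :=
    (card_le_card hsub).trans card_biUnion_le
  have h2 : ∀ p ∈ I, (univ.filter fun M : Matrix (Fin m) (Fin n) (ZMod 2) =>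
      ∀ l, Matrix.vecMul (p.1 l) M = ∑ s, p.2 l s • r s).card * 2 ^ (j * n) = 2 ^ (m * n) := by
    intro p hp
    simp only [I, mem_filter, mem_univ, true_and] at hp
    exact card_matrices p.1 hp _
  have h3 : I.card ≤ 2 ^ (m * j + k * j) := by
    calc I.card ≤ (univ : Finset ((Fin j → Fin m → ZMod 2) × (Fin j → Fin k → ZMod 2))).card :=
          card_le_card (filter_subset _ _)
      _ = 2 ^ (m * j + k * j) := by
          rw [card_univ, Fintype.card_prod, pow_add]
          simp [← pow_mul]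
  calc (Bad m n j k r).card * 2 ^ (j * n)
      ≤ (∑ p ∈ I, (univ.filter fun M : Matrix (Fin m) (Fin n) (ZMod 2) =>
        ∀ l, Matrix.vecMul (p.1 l) M = ∑ s, p.2 l s • r s).card) * 2 ^ (j * n) :=
        Nat.mul_le_mul_right _ h1
    _ = I.card * 2 ^ (m * n) := by
        rw [sum_mul, sum_congr rfl h2, sum_const, smul_eq_mul]
    _ ≤ 2 ^ (m * j + k * j) * 2 ^ (m * n) := Nat.mul_le_mul_right _ h3
    _ = _ := by rw [← pow_add]

/-- Functionals vanishing on a subspace of codimension at most `k` are combinations of `k`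
fixed ones. -/
theorem exists_span {n k : ℕ} (V : Submodule (ZMod 2) (Fin n → ZMod 2))
    (hV : n ≤ finrank (ZMod 2) V + k) :
    ∃ r : Fin k → Fin n → ZMod 2, ∀ ρ : Fin n → ZMod 2, (∀ v ∈ V, ρ ⬝ᵥ v = 0) →
      ∃ c : Fin k → ZMod 2, ρ = ∑ s, c s • r s := by
  classical
  have h3 := Subspace.finrank_add_finrank_dualAnnihilator_eq V
  have h4 : finrank (ZMod 2) (Fin n → ZMod 2) = n := by simp
  have h5 : finrank (ZMod 2) V.dualAnnihilator ≤ k := by omega
  let B := finBasis (ZMod 2) V.dualAnnihilator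
  let e := dotProductEquiv (ZMod 2) (Fin n)
  let r : Fin k → Fin n → ZMod 2 := fun s =>
    if h : (s : ℕ) < finrank (ZMod 2) V.dualAnnihilator then
      e.symm (B ⟨s, h⟩ : Dual (ZMod 2) (Fin n → ZMod 2)) else 0
  refine ⟨r, fun ρ hρ => ?_⟩
  have hmem : e ρ ∈ V.dualAnnihilator := by
    rw [Submodule.mem_dualAnnihilator]
    intro v hv
    exact hρ v hv
  let x : V.dualAnnihilator := ⟨e ρ, hmem⟩
  refine ⟨fun s => if h : (s : ℕ) < finrank (ZMod 2) V.dualAnnihilator then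
    B.repr x ⟨s, h⟩ else 0, ?_⟩
  have h6 : ρ = ∑ i, B.repr x i • e.symm (B i : Dual (ZMod 2) (Fin n → ZMod 2)) := by
    apply e.injective
    rw [map_sum]
    have h7 : (x : Dual (ZMod 2) (Fin n → ZMod 2)) = ∑ i, B.repr x i • (B i :
        Dual (ZMod 2) (Fin n → ZMod 2)) := by
      have h70 := congrArg (fun z : V.dualAnnihilator =>
        (z : Dual (ZMod 2) (Fin n → ZMod 2))) (B.sum_repr x)
      simp only [Submodule.coe_sum, Submodule.coe_smul] at h70
      exact h70.symm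
    have h8 : e ρ = x := rfl
    rw [h8, h7]
    apply sum_congr rfl
    intro i _
    rw [map_smul, LinearEquiv.apply_symm_apply]
  have h9 : ∑ s : Fin k, (if h : (s : ℕ) < finrank (ZMod 2) V.dualAnnihilator then
      B.repr x ⟨s, h⟩ else 0) • r s
      = ∑ i, B.repr x i • e.symm (B i : Dual (ZMod 2) (Fin n → ZMod 2)) := by
    symm
    apply sum_of_injOn (Fin.castLE h5)
    · intro a _ b _ h; exact Fin.castLE_injective h5 h
    · intro a _; simp
    · intro s _ hs
      have : ¬ (s : ℕ) < finrank (ZMod 2) V.dualAnnihilator := by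
        intro hlt
        apply hs
        simp only [coe_univ, Set.image_univ, Set.mem_range]
        exact ⟨⟨s, hlt⟩, by ext; simp⟩
      simp [this]
    · intro i _
      simp [r]
  rw [h9]
  exact h6

/-- The main counting statement. -/
theorem exists_set {n m t k Y : ℕ} (ht : 16 * t ^ 2 < m) (hn : 1 ≤ n)
    (hcount : n * k + (m + k) * (2 * t + 1) * Y + 4 * Y + 2 < n * (2 * t + 1) * Y) :
    ∃ A : Finset (Fin n → ZMod 2), 2 ^ n ≤ 2 ^ (4 * Y + 2) * A.card ∧
      ∀ V : Submodule (ZMod 2) (Fin n → ZMod 2), (∀ v ∈ V, v ∈ A + A) →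
        finrank (ZMod 2) V + k < n := by
  classical
  set j := 2 * t + 1 with hj
  let Mat := Matrix (Fin m) (Fin n) (ZMod 2)
  let B := half m t
  let AA : (Fin Y → Mat) → Finset (Fin n → ZMod 2) := fun ω =>
    univ.filter fun x => ∀ i, (ω i).mulVec x ∈ B
  let BadSet : Finset (Fin Y → Mat) :=
    (univ : Finset (Fin k → Fin n → ZMod 2)).biUnion fun r =>
      Fintype.piFinset fun _ => Bad m n j k r
  -- good parameters give no subspace
  have hgood : ∀ ω, ω ∉ BadSet → ∀ V : Submodule (ZMod 2) (Fin n → ZMod 2),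
      (∀ v ∈ V, v ∈ AA ω + AA ω) → finrank (ZMod 2) V + k < n := by
    intro ω hω V hV
    by_contra hcon
    push Not at hcon
    obtain ⟨r, hr⟩ := exists_span V hcon
    apply hω
    simp only [BadSet, mem_biUnion, mem_univ, true_and, Fintype.mem_piFinset]
    refine ⟨r, fun i => ?_⟩
    have hw : ∀ v ∈ V, hammingNorm ((ω i).mulVec v) + j ≤ m := by
      intro v hv
      obtain ⟨a, ha, b, hb, rfl⟩ := mem_add.1 (hV v hv)
      simp only [AA, mem_filter, mem_univ, true_and] at ha hb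
      rw [Matrix.mulVec_add]
      exact half_add (ha i) (hb i)
    obtain ⟨u, hu, huv⟩ := exists_annihilators (ω i) V hw
    simp only [Bad, mem_filter, mem_univ, true_and]
    have hc : ∀ l, ∃ c : Fin k → ZMod 2, Matrix.vecMul (u l) (ω i) = ∑ s, c s • r s := by
      intro l
      apply hr
      intro v hv
      rw [← Matrix.dotProduct_mulVec]
      exact huv l v hv
    choose c hc using hc
    exact ⟨u, hu, c, hc⟩
  -- number of bad parameters
  have hbad : BadSet.card * 2 ^ (j * n * Y) ≤ 2 ^ (n * k + (m * j + k * j + m * n) * Y) := by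
    have h1 : BadSet.card ≤ ∑ r : Fin k → Fin n → ZMod 2, (Bad m n j k r).card ^ Y := by
      refine card_biUnion_le.trans (le_of_eq ?_)
      apply sum_congr rfl
      intro r _
      rw [Fintype.card_piFinset_const]
    calc BadSet.card * 2 ^ (j * n * Y)
        ≤ (∑ r : Fin k → Fin n → ZMod 2, (Bad m n j k r).card ^ Y) * 2 ^ (j * n * Y) :=
          Nat.mul_le_mul_right _ h1
      _ = ∑ r : Fin k → Fin n → ZMod 2, ((Bad m n j k r).card * 2 ^ (j * n)) ^ Y := by
          rw [sum_mul]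
          apply sum_congr rfl
          intro r _
          rw [mul_pow, ← pow_mul]
      _ ≤ ∑ _r : Fin k → Fin n → ZMod 2, (2 ^ (m * j + k * j + m * n)) ^ Y := by
          apply sum_le_sum
          intro r _
          exact Nat.pow_le_pow_left (card_Bad m n j k r) Y
      _ = _ := by
          rw [sum_const, smul_eq_mul, card_univ, ← pow_mul, pow_add]
          congr 1
          simp [← pow_mul]
  -- total size
  have htot : (2 ^ n - 1) * (B.card * 2 ^ (m * n)) ^ Y ≤ (∑ ω, (AA ω).card) * 2 ^ (m * Y) := by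
    have h1 : ∑ ω, (AA ω).card = ∑ x : Fin n → ZMod 2,
        (univ.filter fun ω : Fin Y → Mat => ∀ i, (ω i).mulVec x ∈ B).card := by
      simp only [AA, card_filter]
      rw [sum_comm]
    have h2 : ∀ x : Fin n → ZMod 2, x ≠ 0 →
        (univ.filter fun ω : Fin Y → Mat => ∀ i, (ω i).mulVec x ∈ B).card * 2 ^ (m * Y)
          = (B.card * 2 ^ (m * n)) ^ Y := by
      intro x hx
      have h3 : (univ.filter fun ω : Fin Y → Mat => ∀ i, (ω i).mulVec x ∈ B)
          = Fintype.piFinset fun _ => univ.filter fun M : Mat => M.mulVec x ∈ B := by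
        ext ω
        simp [Fintype.mem_piFinset]
      rw [h3, Fintype.card_piFinset_const, pow_mul, ← mul_pow, card_matrices_mem B x hx]
    rw [h1, sum_mul]
    calc (2 ^ n - 1) * (B.card * 2 ^ (m * n)) ^ Y
        = ∑ x ∈ (univ : Finset (Fin n → ZMod 2)).erase 0, (B.card * 2 ^ (m * n)) ^ Y := by
          rw [sum_const, smul_eq_mul, card_erase_of_mem (mem_univ _), card_univ]
          simp
      _ = ∑ x ∈ (univ : Finset (Fin n → ZMod 2)).erase 0,
          (univ.filter fun ω : Fin Y → Mat => ∀ i, (ω i).mulVec x ∈ B).card * 2 ^ (m * Y) := by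
          apply sum_congr rfl
          intro x hx
          rw [h2 x (ne_of_mem_erase hx)]
      _ ≤ _ := sum_le_sum_of_subset (erase_subset _ _)
  -- conclusion
  by_contra hcon
  push Not at hcon
  have hsmall : ∀ ω, ω ∉ BadSet → 2 ^ (4 * Y + 2) * (AA ω).card < 2 ^ n := by
    intro ω hω
    by_contra hge
    push Not at hge
    obtain ⟨V, hV1, hV2⟩ := hcon (AA ω) hge
    have := hgood ω hω V hV1
    omega
  have hΩ : Fintype.card (Fin Y → Mat) = 2 ^ (m * n * Y) := by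
    rw [Fintype.card_fun, Fintype.card_fin, card_matrix, ← pow_mul]
  have hsum : 2 ^ (4 * Y + 2) * ∑ ω, (AA ω).card
      ≤ BadSet.card * 2 ^ (4 * Y + 2 + n) + 2 ^ (m * n * Y) * 2 ^ n := by
    rw [mul_sum]
    calc ∑ ω, 2 ^ (4 * Y + 2) * (AA ω).card
        ≤ ∑ ω, ((if ω ∈ BadSet then 2 ^ (4 * Y + 2 + n) else 0) + 2 ^ n) := by
          apply sum_le_sum
          intro ω _
          by_cases h : ω ∈ BadSet
          · simp only [h, if_true]
            have : (AA ω).card ≤ 2 ^ n := by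
              calc (AA ω).card ≤ Fintype.card (Fin n → ZMod 2) := card_le_univ _
                _ = 2 ^ n := by simp
            calc 2 ^ (4 * Y + 2) * (AA ω).card ≤ 2 ^ (4 * Y + 2) * 2 ^ n :=
                  Nat.mul_le_mul_left _ this
              _ = 2 ^ (4 * Y + 2 + n) := by rw [← pow_add]
              _ ≤ _ := Nat.le_add_right _ _
          · simp only [h, if_false, zero_add]
            exact (hsmall ω h).le
      _ = _ := by
          rw [sum_add_distrib, sum_ite_mem, univ_inter, sum_const, sum_const, card_univ, hΩ,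
            smul_eq_mul, smul_eq_mul]
  -- real computation
  have hB : 3 * 2 ^ m ≤ 32 * B.card := card_half ht
  have e1 : (2 : ℝ) ^ (n : ℕ) ≥ 2 := by
    calc (2 : ℝ) = 2 ^ 1 := by norm_num
      _ ≤ 2 ^ n := pow_le_pow_right₀ (by norm_num) hn
  have e2 : ((2 : ℝ) ^ n - 1) * ((B.card : ℝ) * 2 ^ (m * n)) ^ Y
      ≤ (∑ ω, ((AA ω).card : ℝ)) * 2 ^ (m * Y) := by
    have := htot
    have h1 : ((2 ^ n - 1 : ℕ) : ℝ) = 2 ^ n - 1 := by
      rw [Nat.cast_sub Nat.one_le_two_pow]; simp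
    have h2 : (((2 ^ n - 1) * (B.card * 2 ^ (m * n)) ^ Y : ℕ) : ℝ)
        ≤ (((∑ ω, (AA ω).card) * 2 ^ (m * Y) : ℕ) : ℝ) := by exact_mod_cast this
    rw [Nat.cast_mul, h1] at h2
    push_cast at h2
    exact h2
  have e3 : (2 : ℝ) ^ (4 * Y + 2) * ∑ ω, ((AA ω).card : ℝ)
      ≤ BadSet.card * 2 ^ (4 * Y + 2 + n) + 2 ^ (m * n * Y) * 2 ^ n := by
    exact_mod_cast hsum
  have e4 : (3 / 32 : ℝ) * 2 ^ m ≤ B.card := by
    have : (3 * 2 ^ m : ℝ) ≤ 32 * B.card := by exact_mod_cast hB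
    linarith
  have e5 : (BadSet.card : ℝ) * 2 ^ (j * n * Y) ≤ 2 ^ (n * k + (m * j + k * j + m * n) * Y) := by
    exact_mod_cast hbad
  -- `BadSet` is tiny
  have e6 : (BadSet.card : ℝ) * 2 ^ (4 * Y + 2) * 2 ≤ 2 ^ (m * n * Y) := by
    have h1 : n * k + (m * j + k * j + m * n) * Y + (4 * Y + 2 + 1) ≤ j * n * Y + m * n * Y := by
      have : n * k + (m + k) * j * Y + 4 * Y + 2 + 1 ≤ n * j * Y := hcount
      nlinarith
    have h2 : (BadSet.card : ℝ) * 2 ^ (j * n * Y) * 2 ^ (4 * Y + 2 + 1)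
        ≤ 2 ^ (j * n * Y) * 2 ^ (m * n * Y) := by
      calc (BadSet.card : ℝ) * 2 ^ (j * n * Y) * 2 ^ (4 * Y + 2 + 1)
          ≤ 2 ^ (n * k + (m * j + k * j + m * n) * Y) * 2 ^ (4 * Y + 2 + 1) :=
            mul_le_mul_of_nonneg_right e5 (by positivity)
        _ = 2 ^ (n * k + (m * j + k * j + m * n) * Y + (4 * Y + 2 + 1)) := by rw [← pow_add]
        _ ≤ 2 ^ (j * n * Y + m * n * Y) := pow_le_pow_right₀ (by norm_num) h1
        _ = _ := by rw [pow_add]
    have h3 : (0 : ℝ) < 2 ^ (j * n * Y) := by positivity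
    have h4 : (2 : ℝ) ^ (j * n * Y) * ((BadSet.card : ℝ) * 2 ^ (4 * Y + 2) * 2)
        ≤ 2 ^ (j * n * Y) * 2 ^ (m * n * Y) := by
      calc (2 : ℝ) ^ (j * n * Y) * ((BadSet.card : ℝ) * 2 ^ (4 * Y + 2) * 2)
          = (BadSet.card : ℝ) * 2 ^ (j * n * Y) * 2 ^ (4 * Y + 2 + 1) := by
            rw [pow_succ (2 : ℝ) (4 * Y + 2)]; ring
        _ ≤ _ := h2
    exact le_of_mul_le_mul_left h4 h3
  -- lower bound for the total
  have e7 : (2 : ℝ) ^ n / 2 * (3 / 32) ^ Y * 2 ^ (m * n * Y) ≤ ∑ ω, ((AA ω).card : ℝ) := by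
    have h1 : ((3 / 32 : ℝ) * 2 ^ m * 2 ^ (m * n)) ^ Y ≤ ((B.card : ℝ) * 2 ^ (m * n)) ^ Y := by
      apply pow_le_pow_left₀ (by positivity)
      exact mul_le_mul_of_nonneg_right e4 (by positivity)
    have h2 : (2 : ℝ) ^ n / 2 ≤ 2 ^ n - 1 := by linarith
    have h3 : (2 : ℝ) ^ n / 2 * ((3 / 32 : ℝ) * 2 ^ m * 2 ^ (m * n)) ^ Y
        ≤ (∑ ω, ((AA ω).card : ℝ)) * 2 ^ (m * Y) :=
      (mul_le_mul h2 h1 (by positivity) (by linarith)).trans e2
    have h4 : ((3 / 32 : ℝ) * 2 ^ m * 2 ^ (m * n)) ^ Y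
        = (3 / 32) ^ Y * 2 ^ (m * n * Y) * 2 ^ (m * Y) := by
      rw [mul_pow, mul_pow, ← pow_mul, ← pow_mul]; ring
    rw [h4] at h3
    have h5 : (0 : ℝ) < 2 ^ (m * Y) := by positivity
    have h6 : (2 : ℝ) ^ n / 2 * (3 / 32) ^ Y * 2 ^ (m * n * Y) * 2 ^ (m * Y)
        ≤ (∑ ω, ((AA ω).card : ℝ)) * 2 ^ (m * Y) := by
      calc (2 : ℝ) ^ n / 2 * (3 / 32) ^ Y * 2 ^ (m * n * Y) * 2 ^ (m * Y)
          = 2 ^ n / 2 * ((3 / 32) ^ Y * 2 ^ (m * n * Y) * 2 ^ (m * Y)) := by ring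
        _ ≤ _ := h3
    exact le_of_mul_le_mul_right h6 h5
  have e8 : (1 : ℝ) ≤ 2 ^ (4 * Y) * (3 / 32) ^ Y := by
    rw [pow_mul, ← mul_pow]
    apply one_le_pow₀
    norm_num
  -- combine
  set X : ℝ := 2 ^ (m * n * Y) with hX
  have hXpos : 0 < X := by positivity
  have hNpos : (0 : ℝ) < 2 ^ n := by positivity
  have f1 : 2 * (2 : ℝ) ^ n * X ≤ 2 ^ (4 * Y + 2) * ∑ ω, ((AA ω).card : ℝ) := by
    calc 2 * (2 : ℝ) ^ n * X ≤ 2 * (2 : ℝ) ^ n * X * (2 ^ (4 * Y) * (3 / 32) ^ Y) :=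
          le_mul_of_one_le_right (by positivity) e8
      _ = 2 ^ (4 * Y + 2) * ((2 : ℝ) ^ n / 2 * (3 / 32) ^ Y * X) := by
          rw [pow_add]; ring
      _ ≤ _ := mul_le_mul_of_nonneg_left e7 (by positivity)
  have f2 : (BadSet.card : ℝ) * 2 ^ (4 * Y + 2 + n) ≤ X / 2 * 2 ^ n := by
    rw [pow_add]
    have : (BadSet.card : ℝ) * 2 ^ (4 * Y + 2) ≤ X / 2 := by linarith
    calc (BadSet.card : ℝ) * (2 ^ (4 * Y + 2) * 2 ^ n)
        = (BadSet.card : ℝ) * 2 ^ (4 * Y + 2) * 2 ^ n := by ring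
      _ ≤ _ := mul_le_mul_of_nonneg_right this hNpos.le
  have f3 : 2 * (2 : ℝ) ^ n * X ≤ X / 2 * 2 ^ n + X * 2 ^ n := by linarith
  nlinarith [mul_pos hXpos hNpos]

end Pool.Agent.LGL
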