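import Mathlib

/-!
Linear algebra over `F₂` for the lower bound on the codimension of subspaces in sumsets.
-/

namespace Pool.Agent.LGL

open Finset Module

/-- A subspace of `F₂^m` of dimension `r` contains a vector with at least `r` non-zero
coordinates. -/
theorem exists_heavy {m : ℕ} (W : Submodule (ZMod 2) (Fin m → ZMod 2)) :
    ∃ w ∈ W, finrank (ZMod 2) W ≤ hammingNorm w := by
  classical
  -- coordinate functionals on `W`
  let φ : Fin m → Dual (ZMod 2) W := fun i => (LinearMap.proj i).comp W.subtype
  have hspan : Submodule.span (ZMod 2) (Set.range φ) = ⊤ := by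
    rw [eq_top_iff]
    intro ψ _
    apply FiniteDimensional.mem_span_of_iInf_ker_le_ker
    intro w hw
    rw [Submodule.mem_iInf] at hw
    have : w = 0 := by
      apply Subtype.ext
      funext i
      exact hw i
    rw [this]
    exact Submodule.zero_mem _
  obtain ⟨κ, a, hinj, hsp, hli⟩ := exists_linearIndependent' (ZMod 2) φ
  have : Finite κ := Finite.of_injective a hinj
  let _ : Fintype κ := Fintype.ofFinite κ
  let b : Basis κ (ZMod 2) (Dual (ZMod 2) W) := Basis.mk hli (by rw [hsp, hspan])
  let F : Dual (ZMod 2) (Dual (ZMod 2) W) := b.constr (ZMod 2) (fun _ => (1 : ZMod 2))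
  let w : W := (evalEquiv (ZMod 2) W).symm F
  have hw : ∀ ψ : Dual (ZMod 2) W, ψ w = F ψ := by
    intro ψ
    have : evalEquiv (ZMod 2) W w = F := LinearEquiv.apply_symm_apply _ _
    rw [← this]
    rfl
  refine ⟨w, w.2, ?_⟩
  have h1 : ∀ k : κ, (w : Fin m → ZMod 2) (a k) = 1 := by
    intro k
    have h2 : φ (a k) w = F (φ (a k)) := hw _
    have h3 : F (φ (a k)) = 1 := by
      have : b k = φ (a k) := by simp [b]
      rw [← this]
      simp [F]
    have h4 : φ (a k) w = (w : Fin m → ZMod 2) (a k) := rfl
    rw [← h4, h2, h3]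
  have hcard : finrank (ZMod 2) W = Fintype.card κ := by
    rw [← Subspace.dual_finrank_eq, finrank_eq_card_basis b]
  rw [hcard, hammingNorm]
  calc Fintype.card κ = (univ : Finset κ).card := rfl
    _ = (univ.image a).card := (card_image_of_injective _ hinj).symm
    _ ≤ _ := by
      apply card_le_card
      intro i hi
      simp only [mem_image, mem_univ, true_and] at hi
      obtain ⟨k, rfl⟩ := hi
      simp [h1 k]

/-- If all vectors of `M V` have weight less than `m - 2t`, then there are `2t+1` linearly
independent `u` with `u M v = 0` on `V`. -/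
theorem exists_annihilators {m n j : ℕ} (M : Matrix (Fin m) (Fin n) (ZMod 2))
    (V : Submodule (ZMod 2) (Fin n → ZMod 2))
    (h : ∀ v ∈ V, hammingNorm (M.mulVec v) + j ≤ m) :
    ∃ u : Fin j → Fin m → ZMod 2, LinearIndependent (ZMod 2) u ∧
      ∀ l, ∀ v ∈ V, u l ⬝ᵥ M.mulVec v = 0 := by
  classical
  let W : Submodule (ZMod 2) (Fin m → ZMod 2) := V.map M.mulVecLin
  obtain ⟨w, hwW, hw⟩ := exists_heavy W
  obtain ⟨v, hv, rfl⟩ := (Submodule.mem_map.1 hwW)
  have h1 := h v hv
  have h2 : finrank (ZMod 2) W + j ≤ m := by
    have : hammingNorm (M.mulVecLin v) = hammingNorm (M.mulVec v) := rfl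
    omega
  have h3 := Subspace.finrank_add_finrank_dualAnnihilator_eq W
  have h4 : finrank (ZMod 2) (Fin m → ZMod 2) = m := by simp
  have h5 : j ≤ finrank (ZMod 2) W.dualAnnihilator := by omega
  let B := finBasis (ZMod 2) W.dualAnnihilator
  let c : Fin j → W.dualAnnihilator := fun l => B (Fin.castLE h5 l)
  have hc : LinearIndependent (ZMod 2) c :=
    B.linearIndependent.comp _ (Fin.castLE_injective h5)
  let e := dotProductEquiv (ZMod 2) (Fin m)
  refine ⟨fun l => e.symm (c l : Dual (ZMod 2) (Fin m → ZMod 2)), ?_, ?_⟩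
  · have hc2 : LinearIndependent (ZMod 2)
        (fun l => (c l : Dual (ZMod 2) (Fin m → ZMod 2))) :=
      hc.map' W.dualAnnihilator.subtype (Submodule.ker_subtype _)
    exact hc2.map' e.symm.toLinearMap (LinearEquiv.ker _)
  · intro l v hv
    have h6 : (c l : Dual (ZMod 2) (Fin m → ZMod 2)) (M.mulVec v) = 0 := by
      have := (Submodule.mem_dualAnnihilator _).1 (c l).2
      exact this _ (Submodule.mem_map_of_mem hv)
    have h7 : e (e.symm (c l : Dual (ZMod 2) (Fin m → ZMod 2))) = c l :=
      LinearEquiv.apply_symm_apply _ _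
    rw [← h7] at h6
    exact h6

/-- All fibres of a surjective linear map between finite `F₂` vector spaces have the same size. -/
theorem card_fiber {E F : Type*} [AddCommGroup E] [Module (ZMod 2) E] [Fintype E]
    [AddCommGroup F] [Module (ZMod 2) F] [Fintype F] [DecidableEq F]
    (f : E →ₗ[ZMod 2] F) (hf : Function.Surjective f) (y : F) :
    (univ.filter fun x => f x = y).card * Fintype.card F = Fintype.card E := by
  classical
  have h0 : ∀ z : F, (univ.filter fun x => f x = z).card = (univ.filter fun x => f x = y).card := by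
    intro z
    obtain ⟨a, ha⟩ := hf z
    obtain ⟨b, hb⟩ := hf y
    apply card_bij (fun x _ => x - a + b)
    · intro x hx
      simp only [mem_filter, mem_univ, true_and] at hx ⊢
      rw [map_add, map_sub, hx, ha, hb]; simp
    · intro x _ x' _ h
      have := add_right_cancel h
      exact sub_left_injective this
    · intro x hx
      simp only [mem_filter, mem_univ, true_and] at hx
      refine ⟨x - b + a, ?_, by abel⟩
      simp only [mem_filter, mem_univ, true_and]
      rw [map_add, map_sub, hx, ha, hb]; simp
  have h1 : (univ : Finset E).card = ∑ z : F, (univ.filter fun x => f x = z).card :=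
    card_eq_sum_card_fiberwise (fun x _ => mem_univ _)
  rw [← card_univ, ← card_univ, h1, sum_congr rfl (fun z _ => h0 z), sum_const, smul_eq_mul,
    mul_comm]

theorem card_matrix {m n : ℕ} :
    Fintype.card (Matrix (Fin m) (Fin n) (ZMod 2)) = 2 ^ (m * n) := by
  classical
  have h : Fintype.card (Matrix (Fin m) (Fin n) (ZMod 2))
      = Fintype.card (Fin m → Fin n → ZMod 2) := Fintype.card_congr (Equiv.refl _)
  rw [h, Fintype.card_fun, Fintype.card_fun, ZMod.card, Fintype.card_fin, Fintype.card_fin,
    ← pow_mul, mul_comm]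

/-- For linearly independent rows `u`, at most `2^((m-j)n)` matrices `M` have `u M = ρ`. -/
theorem card_matrices {m n j : ℕ} (u : Fin j → Fin m → ZMod 2)
    (hu : LinearIndependent (ZMod 2) u) (ρ : Fin j → Fin n → ZMod 2) :
    (univ.filter fun M : Matrix (Fin m) (Fin n) (ZMod 2) =>
      ∀ l, Matrix.vecMul (u l) M = ρ l).card * 2 ^ (j * n) = 2 ^ (m * n) := by
  classical
  let f : Matrix (Fin m) (Fin n) (ZMod 2) →ₗ[ZMod 2] (Fin j → Fin n → ZMod 2) :=
    { toFun := fun M l => Matrix.vecMul (u l) M
      map_add' := by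
        intro M N; funext l; simp [Matrix.vecMul_add]
      map_smul' := by
        intro c M; funext l; simp [Matrix.vecMul_smul] }
  have hsurj : Function.Surjective f := by
    -- the map `c ↦ (u_l · c)` is surjective
    let U : Matrix (Fin j) (Fin m) (ZMod 2) := u
    have hrank : U.rank = j := by
      have := LinearIndependent.rank_matrix (M := U) hu
      simpa using this
    have hs : Function.Surjective U.mulVecLin := by
      rw [← LinearMap.range_eq_top]
      apply Submodule.eq_top_of_finrank_eq
      have : finrank (ZMod 2) (LinearMap.range U.mulVecLin) = j := hrank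
      rw [this]; simp
    intro σ
    choose c hc using fun p : Fin n => hs (fun l => σ l p)
    refine ⟨fun i p => c p i, ?_⟩
    funext l p
    have := congrFun (hc p) l
    simpa [f, U, Matrix.vecMul, Matrix.mulVec, dotProduct, mul_comm] using this
  have h := card_fiber f hsurj ρ
  have h2 : (univ.filter fun M : Matrix (Fin m) (Fin n) (ZMod 2) => f M = ρ)
      = univ.filter fun M : Matrix (Fin m) (Fin n) (ZMod 2) => ∀ l, Matrix.vecMul (u l) M = ρ l := by
    apply filter_congr
    intro M _
    exact ⟨fun h l => congrFun h l, fun h => funext h⟩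
  rw [h2] at h
  have h3 : Fintype.card (Fin j → Fin n → ZMod 2) = 2 ^ (j * n) := by
    simp [← pow_mul, mul_comm]
  have h4 : Fintype.card (Matrix (Fin m) (Fin n) (ZMod 2)) = 2 ^ (m * n) := card_matrix
  rw [h3, h4] at h
  exact h

/-- The number of matrices with `M x ∈ B`, for `x ≠ 0`. -/
theorem card_matrices_mem {m n : ℕ} (B : Finset (Fin m → ZMod 2)) (x : Fin n → ZMod 2)
    (hx : x ≠ 0) :
    (univ.filter fun M : Matrix (Fin m) (Fin n) (ZMod 2) => M.mulVec x ∈ B).card * 2 ^ m
      = B.card * 2 ^ (m * n) := by
  classical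
  let f : Matrix (Fin m) (Fin n) (ZMod 2) →ₗ[ZMod 2] (Fin m → ZMod 2) :=
    { toFun := fun M => M.mulVec x
      map_add' := by intro M N; simp [Matrix.add_mulVec]
      map_smul' := by intro c M; simp [Matrix.smul_mulVec] }
  have hsurj : Function.Surjective f := by
    obtain ⟨p, hp⟩ := Function.ne_iff.1 hx
    have hp1 : x p = 1 := by
      have : ∀ a : ZMod 2, a ≠ 0 → a = 1 := by decide
      exact this _ hp
    intro y
    refine ⟨fun i q => if q = p then y i else 0, ?_⟩
    funext i
    simp [f, Matrix.mulVec, dotProduct, hp1]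
  have h1 : (univ.filter fun M : Matrix (Fin m) (Fin n) (ZMod 2) => M.mulVec x ∈ B).card
      = ∑ y ∈ B, (univ.filter fun M : Matrix (Fin m) (Fin n) (ZMod 2) => f M = y).card := by
    rw [card_eq_sum_card_fiberwise (f := fun M : Matrix (Fin m) (Fin n) (ZMod 2) => M.mulVec x)
      (t := B) (by intro M hM; simpa using hM)]
    apply sum_congr rfl
    intro y hy
    congr 1
    ext M
    simp only [mem_filter, mem_univ, true_and]
    constructor
    · intro h; exact h.2
    · intro h
      have h' : M.mulVec x = y := h
      exact ⟨by rw [h']; exact hy, h'⟩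
  have h3 : Fintype.card (Fin m → ZMod 2) = 2 ^ m := by simp
  have h4 : Fintype.card (Matrix (Fin m) (Fin n) (ZMod 2)) = 2 ^ (m * n) := card_matrix
  rw [h1, sum_mul]
  have : ∀ y ∈ B, (univ.filter fun M : Matrix (Fin m) (Fin n) (ZMod 2) => f M = y).card * 2 ^ m
      = 2 ^ (m * n) := by
    intro y _
    have := card_fiber f hsurj y
    rw [h3, h4] at this
    exact this
  rw [sum_congr rfl this, sum_const, smul_eq_mul]

end Pool.Agent.LGL
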